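import Pool.Agent.H20.ER3.Lib

/-!
# MP_816b90_co: Operation C, the prism without two consecutive vertices of a rung in `R` (D5)
-/

set_option autoImplicit false
set_option linter.unusedVariables false

namespace Pool.Agent.H2.ER3

open Pool.Agent.H48.ER Pool.Agent.H52.ER2 Pool.Agent.H66.ER2 Pool.Agent.H20.ER3

section

variable {V : Type} {G : SimpleGraph V} {R : Set V} {p q : V} {n : Fin 3 → ℕ}
  {g : Fin 3 → ℕ → V}

/-- no vertex of a prism of the contraction is `q` -/
theorem ne_q (hg : PI (ctr G p q) n g) {i : Fin 3} {l : ℕ} (hl : l ≤ n i) : g i l ≠ q := by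
  intro e
  have hpos := hg.pos i
  by_cases h : l < n i
  · have h1 : (ctr G p q).Adj (g i l) (g i (l + 1)) :=
      (hg.adj i i l (l + 1) hl (by omega)).2 (Or.inl ⟨rfl, Or.inl rfl⟩)
    rw [e] at h1
    exact ctr_not_adj h1
  · have h1 : (ctr G p q).Adj (g i l) (g i (l - 1)) :=
      (hg.adj i i l (l - 1) hl (by omega)).2 (Or.inl ⟨rfl, Or.inr (by omega)⟩)
    rw [e] at h1
    exact ctr_not_adj h1

theorem d5core (hDE : U_DE) (hPX : U_PX) (hPW : U_PW) (hPP : U_PP) {k : ℕ} (hE : EvS G R)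
    (hpq : EvP G p q) (hp : p ∉ R) (hq : q ∉ R) (hg : PI (ctr G p q) n g) (ho : ∀ i, Odd (n i))
    (hk : k < n 0) (h0 : g 0 k = p) (h1 : g 0 (k + 1) ∉ R)
    (hall : ∀ i l, l ≤ n i → ¬ (i = 0 ∧ (l = k ∨ l = k + 1)) → g i l ∈ R) :
    ∃ z, (z = p ∨ z = q) ∧ ∀ j l, l ≤ n j → (ctr G p q).Adj p (g j l) → G.Adj z (g j l) := by
  have hnp : ∀ i l, l ≤ n i → ¬ (i = 0 ∧ l = k) → g i l ≠ p := by
    intro i l hl hn e
    rw [← h0] at e
    exact hn (hg.inj i 0 l k hl hk.le e)
  have hadj : ∀ j l, l ≤ n j → ((ctr G p q).Adj p (g j l) ↔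
      (0 = j ∧ (k + 1 = l ∨ l + 1 = k)) ∨ (0 ≠ j ∧ ((k = 0 ∧ l = 0) ∨ (k = n 0 ∧ l = n j)))) := by
    intro j l hl
    rw [← hg.adj 0 j k l hk.le hl, h0]
  -- the choice of `z` and of the path
  have key : ∃ (z x0 : V) (X0 : Set V), (z = p ∨ z = q) ∧ G.Adj z x0 ∧
      IP (ctr G p q) (n 0 + n 1) x0 (g 0 (k + 1)) X0 ∧
      (∀ w ∈ X0, ∃ i l, l ≤ n i ∧ g i l = w ∧ ¬ (i = 0 ∧ l = k)) ∧
      (∀ w ∈ X0, (ctr G p q).Adj p w → w = x0 ∨ w = g 0 (k + 1)) ∧
      (∀ j l, l ≤ n j → (ctr G p q).Adj p (g j l) → g j l ≠ g 0 (k + 1) →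
        G.Adj z (g j l)) := by
    by_cases hk0 : k = 0
    · subst hk0
      have a1 : (ctr G p q).Adj p (g 1 0) :=
        (hadj 1 0 (Nat.zero_le _)).2 (Or.inr ⟨by decide, Or.inl ⟨rfl, rfl⟩⟩)
      have a2 : (ctr G p q).Adj p (g 2 0) :=
        (hadj 2 0 (Nat.zero_le _)).2 (Or.inr ⟨by decide, Or.inl ⟨rfl, rfl⟩⟩)
      have a3 : (ctr G p q).Adj (g 1 0) (g 2 0) :=
        (hg.adj 1 2 0 0 (Nat.zero_le _) (Nat.zero_le _)).2
          (Or.inr ⟨by decide, Or.inl ⟨rfl, rfl⟩⟩)
      have a3' : G.Adj (g 1 0) (g 2 0) := by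
        rwa [ctr_adj_of_ne (hnp 1 0 (Nat.zero_le _) (by decide)) (ne_q hg (Nat.zero_le _))
          (hnp 2 0 (Nat.zero_le _) (by decide)) (ne_q hg (Nat.zero_le _))] at a3
      obtain ⟨z, hz, z1, z2⟩ := hDE V G p q (g 1 0) (g 2 0) hpq a1 a2 a3'
      have hfl := (hPP V (ctr G p q) n g hg).2.1
      have hpth := hPX V (ctr G p q) n (fun i k => g i (n i - k)) 1 0 (n 1) (n 0 - 1) hfl
        (by decide) le_rfl (by omega) (by omega)
      have e1 : n 1 + 1 + (n 0 - 1) = n 0 + n 1 := by omega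
      have e2 : n 0 - (n 0 - 1) = 0 + 1 := by omega
      rw [e1] at hpth
      simp only [Nat.sub_self, e2] at hpth
      refine ⟨z, g 1 0, _, hz, z1, hpth, ?_, ?_, ?_⟩
      · rintro w (⟨m, _, hm, rfl⟩ | ⟨m, _, hm, rfl⟩)
        · exact ⟨1, n 1 - m, by omega, rfl, by rintro ⟨h, _⟩; exact absurd h (by decide)⟩
        · exact ⟨0, n 0 - m, by omega, rfl, by rintro ⟨_, h⟩; omega⟩
      · rintro w (⟨m, _, hm, rfl⟩ | ⟨m, _, hm, rfl⟩) ha
        · left
          have ha' := (hadj 1 (n 1 - m) (by omega)).1 ha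
          rcases ha' with ⟨h, _⟩ | ⟨_, ⟨_, h⟩ | ⟨h, _⟩⟩
          · exact absurd h (by decide)
          · show g 1 (n 1 - m) = g 1 0
            rw [h]
          · omega
        · right
          have ha' := (hadj 0 (n 0 - m) (by omega)).1 ha
          rcases ha' with ⟨_, h | h⟩ | ⟨h, _⟩
          · show g 0 (n 0 - m) = g 0 (0 + 1)
            rw [← h]
          · omega
          · exact absurd rfl h
      · intro j l hl ha hne
        have ha' := (hadj j l hl).1 ha
        rcases ha' with ⟨h, h' | h'⟩ | ⟨h, ⟨_, h'⟩ | ⟨h', _⟩⟩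
        · exfalso
          apply hne
          rw [← h, ← h']
        · omega
        · rw [h']
          fin_cases j
          · exact absurd rfl h
          · exact z1
          · exact z2
        · omega
    · have a1 : (ctr G p q).Adj p (g 0 (k - 1)) :=
        (hadj 0 (k - 1) (by omega)).2 (Or.inl ⟨rfl, Or.inr (by omega)⟩)
      have hz0 : G.Adj p (g 0 (k - 1)) ∨ G.Adj q (g 0 (k - 1)) := by
        rwa [ctr_adj_left (hnp 0 (k - 1) (by omega) (by rintro ⟨_, h⟩; omega))
          (ne_q hg (by omega)) hpq.1] at a1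
      obtain ⟨z, hz, z1⟩ : ∃ z, (z = p ∨ z = q) ∧ G.Adj z (g 0 (k - 1)) := by
        rcases hz0 with h | h
        · exact ⟨p, Or.inl rfl, h⟩
        · exact ⟨q, Or.inr rfl, h⟩
      have hpth := hPW V (ctr G p q) n g 0 1 (k - 1) (k + 1) hg (by decide) (by omega) (by omega)
      have e1 : (k - 1) + 1 + n 1 + 1 + (n 0 - (k + 1)) = n 0 + n 1 := by omega
      rw [e1] at hpth
      refine ⟨z, g 0 (k - 1), _, hz, z1, hpth, ?_, ?_, ?_⟩
      · rintro w ((⟨m, _, hm, rfl⟩ | ⟨m, _, hm, rfl⟩) | ⟨m, hm', hm, rfl⟩)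
        · exact ⟨0, m, by omega, rfl, by rintro ⟨_, h⟩; omega⟩
        · exact ⟨1, m, by omega, rfl, by rintro ⟨h, _⟩; exact absurd h (by decide)⟩
        · exact ⟨0, m, by omega, rfl, by rintro ⟨_, h⟩; omega⟩
      · rintro w ((⟨m, _, hm, rfl⟩ | ⟨m, _, hm, rfl⟩) | ⟨m, hm', hm, rfl⟩) ha
        · left
          have ha' := (hadj 0 m (by omega)).1 ha
          rcases ha' with ⟨_, h | h⟩ | ⟨h, _⟩
          · omega
          · rw [show m = k - 1 by omega]
          · exact absurd rfl h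
        · have ha' := (hadj 1 m (by omega)).1 ha
          rcases ha' with ⟨h, _⟩ | ⟨_, ⟨h, _⟩ | ⟨h, _⟩⟩
          · exact absurd h (by decide)
          · omega
          · omega
        · right
          have ha' := (hadj 0 m (by omega)).1 ha
          rcases ha' with ⟨_, h | h⟩ | ⟨h, _⟩
          · rw [← h]
          · omega
          · exact absurd rfl h
      · intro j l hl ha hne
        have ha' := (hadj j l hl).1 ha
        rcases ha' with ⟨h, h' | h'⟩ | ⟨h, ⟨h', _⟩ | ⟨h', _⟩⟩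
        · exfalso
          apply hne
          rw [← h, ← h']
        · rw [← h, show l = k - 1 by omega]
          exact z1
        · omega
        · omega
  obtain ⟨z, x0, X0, hz, hzx, hX, hv, hp1, hzall⟩ := key
  have hneX : ∀ w ∈ X0, w ≠ p ∧ w ≠ q := by
    intro w hw
    obtain ⟨i, l, hl, rfl, hn⟩ := hv w hw
    exact ⟨hnp i l hl hn, ne_q hg hl⟩
  have hzR : z ∉ R := by
    rcases hz with rfl | rfl
    · exact hp
    · exact hq
  have hzc : G.Adj z (g 0 (k + 1)) := by
    by_contra hcon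
    have hXG : IP G (n 0 + n 1) x0 (g 0 (k + 1)) X0 := by
      refine hX.congr ?_
      intro u hu v hv'
      exact (ctr_adj_of_ne (hneX u hu).1 (hneX u hu).2 (hneX v hv').1 (hneX v hv').2).symm
    have hzX : z ∉ X0 := by
      intro h
      rcases hz with rfl | rfl
      · exact (hneX _ h).1 rfl
      · exact (hneX _ h).2 rfl
    have hza : ∀ w ∈ X0, G.Adj z w ↔ w = x0 := by
      intro w hw
      constructor
      · intro ha
        have ha' : (ctr G p q).Adj p w := by
          rw [ctr_adj_left (hneX w hw).1 (hneX w hw).2 hpq.1]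
          rcases hz with rfl | rfl
          · exact Or.inl ha
          · exact Or.inr ha
        rcases hp1 w hw ha' with h | h
        · exact h
        · rw [h] at ha
          exact absurd ha hcon
      · rintro rfl
        exact hzx
    have hc := hXG.cons hzX hza
    have hev := hE _ z (g 0 (k + 1)) _ hc hzR h1 (by have := hg.pos 0; have := hg.pos 1; omega)
      (by
        rintro w (rfl | hw)
        · exact Or.inl rfl
        · obtain ⟨i, l, hl, rfl, hn⟩ := hv w hw
          by_cases h : i = 0 ∧ l = k + 1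
          · right; left
            rw [h.1, h.2]
          · right; right
            refine hall i l hl ?_
            rintro ⟨hi, h' | h'⟩
            · exact hn ⟨hi, h'⟩
            · exact h ⟨hi, h'⟩)
    obtain ⟨a, ha⟩ := ho 0
    obtain ⟨b, hb⟩ := ho 1
    obtain ⟨c, hc'⟩ := hev
    omega
  refine ⟨z, hz, ?_⟩
  intro j l hl ha
  by_cases h : g j l = g 0 (k + 1)
  · rw [h]; exact hzc
  · exact hzall j l hl ha h

end

theorem pf_D5 (hD0 : U_D0) (hDE : U_DE) (hPX : U_PX) (hPW : U_PW) (hPP : U_PP) : U_D5 := by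
  intro V G R p q n g k hN hE hpq hp hq hg ho hk h0 h1 hall
  obtain ⟨i, m, hm, hgm, hz⟩ := hD0 V G p q n g hN hg ho
  have him : i = 0 ∧ (m = k ∨ m = k + 1) := by
    by_contra hc
    have := hall i m hm hc
    rw [hgm] at this
    exact hp this
  obtain ⟨rfl, hm'⟩ := him
  rcases hm' with rfl | rfl
  · obtain ⟨z, hz1, hz2⟩ := d5core hDE hPX hPW hPP hE hpq hp hq hg ho hk hgm h1 hall
    obtain ⟨j, l, hl, ha, hna⟩ := hz z hz1
    exact hna (hz2 j l hl ha)
  · have hfl := (hPP V (ctr G p q) n g hg).2.1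
    have e1 : n 0 - (n 0 - (k + 1)) = k + 1 := by omega
    have e2 : n 0 - (n 0 - (k + 1) + 1) = k := by omega
    obtain ⟨z, hz1, hz2⟩ := d5core (k := n 0 - (k + 1)) (g := fun i k => g i (n i - k)) hDE hPX
      hPW hPP hE hpq hp hq hfl ho (by omega)
      (by show g 0 (n 0 - (n 0 - (k + 1))) = p; rw [e1]; exact hgm)
      (by show g 0 (n 0 - (n 0 - (k + 1) + 1)) ∉ R; rw [e2]; exact h0)
      (by
        intro i l hl hn
        refine hall i (n i - l) (by omega) ?_
        rintro ⟨rfl, h | h⟩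
        · exact hn ⟨rfl, by omega⟩
        · exact hn ⟨rfl, by omega⟩)
    obtain ⟨j, l, hl, ha, hna⟩ := hz z hz1
    have e3 : n j - (n j - l) = l := by omega
    have h5 : G.Adj z (g j (n j - (n j - l))) := hz2 j (n j - l) (by omega)
      (by show (ctr G p q).Adj p (g j (n j - (n j - l))); rw [e3]; exact ha)
    rw [e3] at h5
    exact hna h5

end Pool.Agent.H2.ER3
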